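import Pool.Agent.KTB.StmtsKA

/-!
Squad KTB, row IPM: the matching of a terminal set is an irreducible perfect cover.
-/

set_option autoImplicit false

namespace Pool.Agent.KTB.H87

open Pool.Agent.KTB Finset
open scoped Classical

theorem ipm (_h1 : IdnStmt) : IpmStmt := by
  intro ι T _ D S M hTm
  obtain ⟨-, ⟨hcl, hun⟩, -⟩ := hTm
  have hE : ∀ k ∈ M, ∃ y ∈ D.N S, ∃ y' ∈ D.N S, D.Clean S k y y' ∧ D.E S k = {y, y'} := by
    intro k hk
    obtain ⟨y, hy, y', hy', hc⟩ := hcl k hk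
    refine ⟨y, hy, y', hy', hc, ?_⟩
    obtain ⟨h1, h2, h3, h4, h5, h6⟩ := hc
    ext b
    simp only [Dat.E, mem_filter, mem_insert, mem_singleton]
    constructor
    · rintro ⟨hb, hb0⟩
      by_contra hcon
      push Not at hcon
      exact hb0 (h6 b hb hcon.1 hcon.2)
    · rintro (rfl | rfl)
      · exact ⟨h1, by rw [h4]; exact one_ne_zero⟩
      · exact ⟨h2, by rw [h5]; exact one_ne_zero⟩
  have hcard : ∀ k ∈ M, (D.E S k).card = 2 := by
    intro k hk
    obtain ⟨y, -, y', -, hc, he⟩ := hE k hk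
    rw [he, Finset.card_pair hc.2.2.1]
  have hexc : ∀ K' ⊆ M, D.exc S K' = 0 := by
    intro K' hK'
    unfold Dat.exc
    refine Finset.sum_eq_zero fun k hk => ?_
    simp [hcard k (hK' hk)]
  refine ⟨?_, ?_, ?_, ?_, ?_⟩
  · intro a ha
    obtain ⟨k, ⟨hk, hka⟩, huq⟩ := hun a ha
    refine ⟨k, hk, ?_, ?_⟩
    · obtain ⟨y, -, y', -, hc, he⟩ := hE k hk
      have haS : a ∈ S := (mem_filter.mp ha).1
      have h7 : a ∈ D.E S k := mem_filter.mpr ⟨haS, hka⟩
      rw [he] at h7
      rcases mem_insert.mp h7 with rfl | h8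
      · exact hc.2.2.2.1
      · rw [mem_singleton.mp h8]
        exact hc.2.2.2.2.1
    · intro j hj hjk
      by_contra hcon
      exact hjk (huq j ⟨hj, hcon⟩)
  · intro a haS haN k hk
    obtain ⟨y, hy, y', hy', hc, -⟩ := hE k hk
    refine hc.2.2.2.2.2 a haS ?_ ?_
    · rintro rfl
      exact haN hy
    · rintro rfl
      exact haN hy'
  · intro k hk
    rw [hcard k hk]
  · rw [hexc M subset_rfl, zero_add]
  · intro K' hK' hne
    rw [hexc K' hK', add_zero]
    obtain ⟨k, hk⟩ := hne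
    obtain ⟨y, hy, y', -, hc, -⟩ := hE k (hK' hk)
    obtain ⟨hyS, ρ, hρ, hρy⟩ := mem_filter.mp hy
    have hlt : D.R (S \ D.EK S K') < D.R S := by
      refine lt_of_le_of_ne ?_ ?_
      · intro σ hσ
        refine ⟨hσ.1, fun a ha => hσ.2 a ?_⟩
        intro hcon
        exact ha (mem_sdiff.mp hcon).1
      · intro heq
        have h9 : ρ ∈ D.R (S \ D.EK S K') := by
          rw [heq]
          exact hρ
        refine hρy (h9.2 y ?_)
        intro hcon
        refine (mem_sdiff.mp hcon).2 (mem_filter.mpr ⟨hyS, k, hk, ?_⟩)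
        rw [hc.2.2.2.1]
        exact one_ne_zero
    exact Submodule.finrank_lt_finrank_of_lt hlt

end Pool.Agent.KTB.H87
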